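import Pool.Agent.Helper69.FF.St

/-!
# FF MODULE E2: selection, `q`-summable case
-/

set_option autoImplicit false

namespace Pool.Agent.Helper84.FF

open _root_.FF DV
open scoped BigOperators

theorem hE2 (hMG : StMG) : StE2 := by
  intro m N s B r w θ t q D hθ hq hD hB hsB hX hexp hw hsum
  -- the injection
  let u : Fin s × Fin B → Fin N := fun a => Fin.castLE hsB (finProdFinEquiv a)
  have hu : Function.Injective u := by
    intro a b h
    exact finProdFinEquiv.injective (Fin.castLE_injective hsB h)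
  have hB0 : (0 : ℝ) < B := by exact_mod_cast hB
  have hq0 : 0 < q := lt_of_lt_of_le one_pos hq
  -- the double sums
  have key : ∀ j, 2 / (B : ℝ) * ∑ l : Fin s, ∑ b : Fin B, w j (u (l, b)) / θ ≤ 1 := by
    intro j
    rcases Nat.eq_zero_or_pos s with hs | hs
    · subst hs
      simp
    have hs0 : (0 : ℝ) < s := by exact_mod_cast hs
    have hn0 : (0 : ℝ) < (s : ℝ) * B := mul_pos hs0 hB0
    set X : ℝ := ((s : ℝ) * B) ^ (1 / q) with hXdef
    have hXpos : 0 < X := Real.rpow_pos_of_pos hn0 _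
    have e1 : ∑ l : Fin s, ∑ b : Fin B, w j (u (l, b)) / θ =
        (∑ a : Fin s × Fin B, w j (u a)) / θ := by
      rw [Fintype.sum_prod_type, Finset.sum_div]
      exact Finset.sum_congr rfl fun l _ => by rw [Finset.sum_div]
    have hS0 : 0 ≤ ∑ a : Fin s × Fin B, w j (u a) := Finset.sum_nonneg fun a _ => hw _ _
    have e2 : (∑ a : Fin s × Fin B, w j (u a)) ^ q ≤
        ((s : ℝ) * B) ^ (q - 1) * D ^ q := by
      have h1 := Real.rpow_sum_le_const_mul_sum_rpow_of_nonneg
        (s := (Finset.univ : Finset (Fin s × Fin B))) (f := fun a => w j (u a)) hq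
        (fun a _ => hw _ _)
      have h2 : ∑ a : Fin s × Fin B, w j (u a) ^ q ≤ ∑ i, w j i ^ q := by
        have h3 : ∑ a : Fin s × Fin B, w j (u a) ^ q =
            ∑ i ∈ (Finset.univ : Finset (Fin s × Fin B)).map ⟨u, hu⟩, w j i ^ q := by
          rw [Finset.sum_map]
          rfl
        rw [h3]
        exact Finset.sum_le_sum_of_subset_of_nonneg (Finset.subset_univ _)
          (fun i _ _ => Real.rpow_nonneg (hw _ _) _)
      have h4 : ((Finset.univ : Finset (Fin s × Fin B)).card : ℝ) = (s : ℝ) * B := by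
        simp
      rw [h4] at h1
      exact h1.trans (mul_le_mul_of_nonneg_left (h2.trans (hsum j))
        (Real.rpow_nonneg hn0.le _))
    have e3 : ∑ a : Fin s × Fin B, w j (u a) ≤ ((s : ℝ) * B) / X * D := by
      have h1 : ((s : ℝ) * B) ^ (q - 1) * D ^ q = (((s : ℝ) * B) / X * D) ^ q := by
        rw [Real.mul_rpow (by positivity) hD, Real.div_rpow hn0.le hXpos.le, hXdef,
          ← Real.rpow_mul hn0.le, one_div_mul_cancel hq0.ne', Real.rpow_one,
          Real.rpow_sub_one hn0.ne']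
      rw [h1] at e2
      exact (Real.rpow_le_rpow_iff hS0 (by positivity) hq0).1 e2
    rw [e1]
    have e4 : 2 / (B : ℝ) * ((∑ a : Fin s × Fin B, w j (u a)) / θ) ≤
        2 / (B : ℝ) * ((((s : ℝ) * B) / X * D) / θ) := by
      gcongr
    refine e4.trans ?_
    have e5 : 2 / (B : ℝ) * ((((s : ℝ) * B) / X * D) / θ) = (2 * (s : ℝ) / θ * D) / X := by
      field_simp
    rw [e5, div_le_one hXpos]
    exact hX
  let g : Fin m ⊕ Fin m → Fin s → Fin B → ℝ := fun a l b =>
    match a with
    | Sum.inl j => if w j (u (l, b)) < θ then w j (u (l, b)) / θ else 0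
    | Sum.inr j => if θ ≤ w j (u (l, b)) then 1 else 0
  let T : Fin m ⊕ Fin m → ℝ := fun a =>
    match a with
    | Sum.inl _ => t / θ
    | Sum.inr _ => (r : ℝ)
  have hg1 : ∀ j l b, g (Sum.inl j) l b ≤ w j (u (l, b)) / θ := by
    intro j l b
    simp only [g]
    split_ifs
    · exact le_rfl
    · exact div_nonneg (hw _ _) hθ.le
  have hg2 : ∀ j l b, g (Sum.inr j) l b ≤ w j (u (l, b)) / θ := by
    intro j l b
    simp only [g]
    split_ifs with h
    · rwa [one_le_div hθ]
    · exact div_nonneg (hw _ _) hθ.le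
  have hcond : ∀ a l b, 0 ≤ g a l b ∧ g a l b ≤ 1 := by
    rintro (j | j) l b
    · simp only [g]
      split_ifs with h
      · exact ⟨div_nonneg (hw _ _) hθ.le, (div_le_one hθ).2 h.le⟩
      · exact ⟨le_rfl, zero_le_one⟩
    · simp only [g]
      split_ifs with h
      · exact ⟨zero_le_one, le_rfl⟩
      · exact ⟨le_rfl, zero_le_one⟩
  have hbd : ∀ (a : Fin m ⊕ Fin m) (j : Fin m), (∀ l b, g a l b ≤ w j (u (l, b)) / θ) →
      2 / (B : ℝ) * ∑ l, ∑ b, g a l b ≤ 1 := by
    intro a j h
    refine (mul_le_mul_of_nonneg_left ?_ (by positivity)).trans (key j)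
    exact Finset.sum_le_sum fun l _ => Finset.sum_le_sum fun b _ => h l b
  have hE : ∑ a, Real.exp (-T a + 2 / (B : ℝ) * ∑ l, ∑ b, g a l b) < 1 := by
    rw [Fintype.sum_sum_type]
    refine lt_of_le_of_lt ?_ hexp
    have h1 : ∑ j : Fin m, Real.exp (-T (Sum.inl j) + 2 / (B : ℝ) * ∑ l, ∑ b, g (Sum.inl j) l b) ≤
        ∑ _j : Fin m, Real.exp (-(t / θ) + 1) := by
      refine Finset.sum_le_sum fun j _ => Real.exp_le_exp.2 ?_
      have := hbd (Sum.inl j) j (hg1 j)
      simp only [T]
      linarith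
    have h2 : ∑ j : Fin m, Real.exp (-T (Sum.inr j) + 2 / (B : ℝ) * ∑ l, ∑ b, g (Sum.inr j) l b) ≤
        ∑ _j : Fin m, Real.exp (-(r : ℝ) + 1) := by
      refine Finset.sum_le_sum fun j _ => Real.exp_le_exp.2 ?_
      have := hbd (Sum.inr j) j (hg2 j)
      simp only [T]
      linarith
    rw [Finset.sum_const, Finset.card_univ, Fintype.card_fin, nsmul_eq_mul] at h1 h2
    rw [mul_add]
    exact add_le_add h1 h2
  obtain ⟨κ, hκ⟩ := hMG (Fin m ⊕ Fin m) s B hB g T hcond hE
  refine ⟨fun l => u (l, κ l), fun j => ⟨?_, ?_⟩⟩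
  · have h := hκ (Sum.inr j)
    simp only [g, T] at h
    rw [Finset.sum_boole] at h
    exact_mod_cast h.le
  · have h := hκ (Sum.inl j)
    simp only [g, T] at h
    have e : ∑ l : Fin s, (if w j (u (l, κ l)) < θ then w j (u (l, κ l)) / θ else 0) =
        (∑ l : Fin s, (if w j (u (l, κ l)) < θ then w j (u (l, κ l)) else 0)) / θ := by
      rw [Finset.sum_div]
      refine Finset.sum_congr rfl fun l _ => ?_
      split_ifs
      · rfl
      · rw [zero_div]
    rw [e, div_lt_div_iff_of_pos_right hθ] at h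
    exact h.le

end Pool.Agent.Helper84.FF
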